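import Mathlib

namespace Pool.Agent.Results.MP_7b4a8e_an.Period3

/-- `y m = x (m - k)`: positive initial values `y 0, …, y k` and the recurrence
`x (n+1) = A / x n ^ 2 + 1 / x (n-k) ^ p` (real power `p`). -/
def IsSol (A p : ℝ) (k : ℕ) (y : ℕ → ℝ) : Prop :=
  (∀ j ≤ k, 0 < y j) ∧ ∀ n, y (n + k + 1) = A / y (n + k) ^ 2 + 1 / y n ^ p

/-- `N` is the least positive period of `y`. -/
def PrimePeriod (y : ℕ → ℝ) (N : ℕ) : Prop :=
  IsLeast {q : ℕ | 1 ≤ q ∧ ∀ n, y (n + q) = y n} N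

lemma exists_root : ∃ b : ℝ, 1 < b ∧ b ^ 6 = b ^ 2 + 1 := by
  have hc : ContinuousOn (fun b : ℝ => b ^ 6 - b ^ 2 - 1) (Set.Icc 1 2) := by fun_prop
  obtain ⟨b, hb, e⟩ := intermediate_value_Icc (by norm_num : (1 : ℝ) ≤ 2) hc
    (show (0 : ℝ) ∈ Set.Icc _ _ by constructor <;> norm_num)
  have e' : b ^ 6 - b ^ 2 - 1 = 0 := e
  refine ⟨b, lt_of_le_of_ne hb.1 ?_, by linarith⟩
  rintro rfl
  norm_num at e'

theorem result : ∃ (A p : ℝ) (k : ℕ) (y : ℕ → ℝ) (N : ℕ),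
    0 < A ∧ 0 < p ∧ IsSol A p k y ∧ PrimePeriod y N ∧ 2 < N ∧ p = 3 ∧ k = 1 ∧ N = 3 := by
  obtain ⟨b, hb, e⟩ := exists_root
  have hb0 : 0 < b := by linarith
  have hne : b ^ 3 ≠ b := by nlinarith [mul_pos hb0 (show 0 < b ^ 2 - 1 by nlinarith)]
  let y : ℕ → ℝ := fun n => if n % 3 = 0 then b ^ 3 else b
  have r3 : ∀ x : ℝ, x ^ (3 : ℝ) = x ^ 3 := fun x => by exact_mod_cast Real.rpow_natCast x 3
  refine ⟨b, 3, 1, y, 3, hb0, by norm_num, ⟨fun j _ => ?_, fun n => ?_⟩, ⟨⟨by norm_num, fun n => ?_⟩, ?_⟩,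
    by norm_num, rfl, rfl, rfl⟩
  · simp only [y]; split_ifs <;> positivity
  · rw [r3]
    have h3 : n % 3 = 0 ∨ n % 3 = 1 ∨ n % 3 = 2 := by omega
    rcases h3 with h | h | h
    · have h1 : (n + 1 + 1) % 3 ≠ 0 := by omega
      have h2 : (n + 1) % 3 ≠ 0 := by omega
      simp only [y, h, h1, h2, if_true, if_false]
      field_simp
      linear_combination (b ^ 4 - b ^ 2 + 1) * e
    · have h1 : (n + 1 + 1) % 3 = 0 := by omega
      have h2 : (n + 1) % 3 ≠ 0 := by omega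
      have h0 : n % 3 ≠ 0 := by omega
      simp only [y, h0, h1, h2, if_true, if_false]
      field_simp
      linear_combination e
    · have h1 : (n + 1 + 1) % 3 ≠ 0 := by omega
      have h2 : (n + 1) % 3 = 0 := by omega
      have h0 : n % 3 ≠ 0 := by omega
      simp only [y, h0, h1, h2, if_true, if_false]
      field_simp
      linear_combination e
  · simp only [y, Nat.add_mod_right]
  · rintro q ⟨hq1, hq⟩
    by_contra hlt
    have h0 := hq 0
    have hq3 : (0 + q) % 3 ≠ 0 := by omega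
    simp only [y, hq3, if_false, Nat.zero_mod, if_true] at h0
    exact hne h0.symm

end Pool.Agent.Results.MP_7b4a8e_an.Period3
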